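import Pool.Agent.ANM65.SpTr

/-!
# Quasi-isometric embeddings in type `A_n` to `C_n` and AN-maps

For every pair `(X₁, X₂)` of irreducible symmetric spaces of rank `n ≥ 2` with restricted root
systems `A_n` and `C_n` (`B_2 = C_2` included): if `X₁` quasi-isometrically embeds in `X₂`, then
there is an AN-map `A₁N₁ → A₂N₂`. In terms of the multiplicities `m` of `X₁` and `m_s`, `m_l`
(short, long roots) of `X₂`: a quasi-isometric embedding forces `m ≤ m_l`, or `n = 3` and
`m ≤ m_s - m_l`, and this condition gives an AN-map. (That an AN-map is a quasi-isometric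
embedding is known and is not proved here.)

All definitions of the statement are in `Pool.Agent.ANM65.Spaces` and (the classical groups) in
`Pool.Agent.ANM51.Defs`, `Pool.Agent.ANM51.Inst`.

The proof of the restriction on the multiplicities. The group `A₁N₁` is solvable, so it has a
right-invariant mean (`Mean`, `Solv`). The mean of the squares of the lengths of the images of
segments of the flats `x A₁` gives scales `r_i → ∞` and large sets of good points at which `f`
maps flats to almost geodesically convex sets at the scale `r_i` (`Energy`). Over the Robinson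
division ring `K` of sequences of growth `exp(O(r_i))` modulo the negligible ones (`Rob`) the norm
of the flat is polyhedral, the flat is described by a frame (a matrix over `K` which preserves the
form) and the frames at the good points define difference elements `V(x, y)` over `K` with
supports and exact sizes governed by the roots (`UN`, `Pair`, `Poly`, `Frame`, `FrameZ`, `Comp`,
`Sel`, `Near`, `VD`). The commutation relations of the root subgroups of `N₁`, used at finitely
many good points, show that the leading coordinate of a suitable root group is additive and takes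
values in a subspace of dimension `m_l`, or `m_s - m_l` and `n = 3` (`VGen`, `VRoot`, `AlgRoot`,
`Alg`, `VSo`). A majority argument on the boxes of a lattice and a packing argument give the bound
(`Blr`, `Fin`, `FinCore`, `FinMain`, `FinSo`). The domain `E_6(-26)/F_4` is reduced to
`SL_3(ℍ)/Sp(3)`, which embeds quasi-isometrically in it (`OctRho`, `OctDom`, `OctQI`).
-/

namespace Pool.Agent.Results.MP_130d7a_gt.QIImpliesAN

open Pool.Agent.ANMS

/-- **Answer to Q1.** -/
theorem result (n : ℕ) (hn : 2 ≤ n) (m ms ml : ℕ) (X₁ X₂ : SymSpace) (h₁ : TypeA n m X₁)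
    (h₂ : TypeC n ms ml X₂) :
    (QIEmbeds X₁ X₂ → ANEmbeds X₁ X₂) ∧
      (QIEmbeds X₁ X₂ → m ≤ ml ∨ (n = 3 ∧ m + ml ≤ ms)) ∧
      (m ≤ ml ∨ (n = 3 ∧ m + ml ≤ ms) → ANEmbeds X₁ X₂) := by
  obtain ⟨h3, h4⟩ := both n hn m ms ml X₁ X₂ h₁ h₂
  exact ⟨fun h => h4 (h3 h), h3, h4⟩

end Pool.Agent.Results.MP_130d7a_gt.QIImpliesAN
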